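import Pool.Agent.Helper57.REC.All6b

/-!
# MP_78e9a5_nt: Shafarevich finiteness for pure `ℤ`-motives of rank two over any number field

`Mot F S 2 w h` is the type of (models of) pure `ℤ`-motives over `F` of rank two and weight `w` with
Hodge types `h 0`, `h 1`, with pure good reduction outside `S` and semistable reduction in `S`.
-/

open NumberField MU

namespace Pool.Agent.Results.MP_78e9a5_nt.RankTwo

/-- Let `F` be a number field and `h 0 ≠ h 1`. There is a number `N` such that every set `𝒯` of pure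
`ℤ`-motives over `F` of rank two, weight `w` and Hodge types `h` with pure good reduction outside
`S` and semistable reduction in `S`, all with semisimple `l`-adic realizations (for all `l`) if `F`
contains a CM field, has at most `N` members up to isomorphism of the adelic realizations, and at
most `N` members up to isomorphism if the Tate conjecture holds for the homomorphisms between
the members of `𝒯`. -/
theorem result (F : Type) [Field F] [NumberField F] (S : Finset ℕ) (hS : ∀ p ∈ S, p.Prime)
    (w : ℕ) (h : Fin 2 → ℕ) (hh : h 0 ≠ h 1) :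
    ∃ N : ℕ, ∀ 𝒯 : Set (Mot F S 2 w h),
      (REC.NoCM F ∨ ∀ M ∈ 𝒯, ∀ (l : ℕ) [Fact l.Prime], REC.IsSS (rat (M.ρ l))) →
      (∃ T : Finset (Mot F S 2 w h), (T : Set (Mot F S 2 w h)) ⊆ 𝒯 ∧ T.card ≤ N ∧
        ∀ M ∈ 𝒯, ∃ M' ∈ T, M.AdelicIso M') ∧
      ((∀ M ∈ 𝒯, ∀ M' ∈ 𝒯, REC.TateHom M M') →
        ∃ T : Finset (Mot F S 2 w h), (T : Set (Mot F S 2 w h)) ⊆ 𝒯 ∧ T.card ≤ N ∧
          ∀ M ∈ 𝒯, ∃ M' ∈ T, M.Iso M') :=
  REC.finiteness_two_ss hS w h hh

end Pool.Agent.Results.MP_78e9a5_nt.RankTwo
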